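import Pool.Agent.Helper25.CliqueGame.Final

set_option autoImplicit false

open Filter Pool.Agent.Helper25.CliqueGame

/-- For all `m, b ≥ 1`: `f_N(2m, b) - f_N(m, b) ≥ 2m log_{b+1} log N - C`, which tends to infinity.
For `m = 1` this is the question about `f_N(m+1, b) - f_N(m, b)`. -/
theorem Pool.Agent.Results.MP_d32cb0_co.DoublingMakerBias.result (m b : ℕ) (hm : 1 ≤ m)
    (hb : 1 ≤ b) :
    (∃ C : ℝ, ∀ N : ℕ, 3 ≤ N →
      (value N m b : ℝ) + 2 * m * Real.logb (b + 1) (Real.log N) - C ≤ value N (2 * m) b) ∧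
    Tendsto (fun N : ℕ => (value N (2 * m) b : ℝ) - value N m b) atTop atTop := by
  have hmain : ∃ C : ℝ, ∀ N : ℕ, 3 ≤ N →
      (value N m b : ℝ) + 2 * m * Real.logb (b + 1) (Real.log N) - C ≤ value N (2 * m) b := by
    obtain ⟨C1, h1⟩ := value_lower (m := 2 * m) (b := b) (by omega) hb
    obtain ⟨C2, h2⟩ := value_upper hm hb
    refine ⟨C1 + C2, fun N hN => ?_⟩
    have h3 := h1 N (by omega)
    have h4 := h2 N hN
    push_cast at h3
    linarith
  refine ⟨hmain, ?_⟩
  obtain ⟨C, hC⟩ := hmain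
  have hb0 : (1 : ℝ) < (b : ℝ) + 1 := by
    have : (0 : ℝ) < b := by exact_mod_cast hb
    linarith
  have hlog : Tendsto (fun N : ℕ => Real.logb ((b : ℝ) + 1) (Real.log N)) atTop atTop :=
    (Real.tendsto_logb_atTop hb0).comp (Real.tendsto_log_atTop.comp tendsto_natCast_atTop_atTop)
  have hm0 : (0 : ℝ) < 2 * m := by
    have : (0 : ℝ) < m := by exact_mod_cast hm
    linarith
  have h2 : Tendsto (fun N : ℕ => 2 * (m : ℝ) * Real.logb ((b : ℝ) + 1) (Real.log N) - C)
      atTop atTop :=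
    tendsto_atTop_add_const_right _ (-C) (hlog.const_mul_atTop hm0)
  refine tendsto_atTop_mono' _ ?_ h2
  filter_upwards [eventually_ge_atTop 3] with N hN
  have := hC N hN
  linarith
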