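import Pool.Agent.Helper78.CG.Final

set_option autoImplicit false

open Filter Topology Pool.Agent.Helper25.CliqueGame Pool.Agent.Helper78.CG

/-- The random graph bound for the biased clique game with every bias, the asymptotic value of
`f_N(1,b)`, and question Q1 for `m = 1` and all `b`. -/
theorem Pool.Agent.Results.MP_d32cb0_co.RandomGraphBound.result :
    (∀ m b : ℕ, 1 ≤ m → 1 ≤ b → ∃ C : ℝ, ∀ᶠ N : ℕ in atTop,
      2 * Real.logb (1 + (b : ℝ) / m) N - 10 * Real.logb (1 + (b : ℝ) / m) (Real.log N) - C ≤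
        value N m b) ∧
    (∀ b : ℕ, 1 ≤ b →
      Tendsto (fun N : ℕ => (value N 1 b : ℝ) / Real.logb (b + 1) N) atTop (𝓝 2)) ∧
    (∀ m b m' b' : ℕ, 1 ≤ m → 1 ≤ b → 1 ≤ m' → 1 ≤ b' → (1 + (b' : ℝ) / m') ^ m < 1 + b →
      ∃ c : ℝ, 0 < c ∧ ∀ᶠ N : ℕ in atTop,
        (value N m b : ℝ) + c * Real.log N ≤ value N m' b') ∧
    (∀ b : ℕ, 1 ≤ b →
      (∃ N0 : ℕ, ∀ N : ℕ, N0 ≤ N → value N 1 (b + 1) < value N 1 b ∧
        value N 1 b < value N 2 b) ∧
      Tendsto (fun N : ℕ => (value N 1 b : ℝ) - value N 1 (b + 1)) atTop atTop ∧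
      Tendsto (fun N : ℕ => (value N 2 b : ℝ) - value N 1 b) atTop atTop) := by
  have hgen : ∀ m b m' b' : ℕ, 1 ≤ m → 1 ≤ b → 1 ≤ m' → 1 ≤ b' →
      (1 + (b' : ℝ) / m') ^ m < 1 + b →
      ∃ c : ℝ, 0 < c ∧ ∀ᶠ N : ℕ in atTop,
        (value N m b : ℝ) + c * Real.log N ≤ value N m' b' := by
    intro m b m' b' hm hb hm' hb' h
    obtain ⟨C1, hC1⟩ := value_lower_random hm' hb'
    obtain ⟨C2, hC2⟩ := value_upper_simple hm hb
    have hb0 : (0 : ℝ) < b := by exact_mod_cast hb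
    have hb0' : (0 : ℝ) < b' := by exact_mod_cast hb'
    have hm0' : (0 : ℝ) < m' := by exact_mod_cast hm'
    have hβ : 1 < 1 + (b' : ℝ) / m' := by
      have := div_pos hb0' hm0'
      linarith
    refine gap_aux (l1 := Real.log (1 + (b' : ℝ) / m')) (l2 := Real.log ((b : ℝ) + 1))
      (C1 := C1) (C2 := C2) (a := m) (Real.log_pos hβ) (Real.log_pos (by linarith)) ?_ ?_ ?_
    · rw [← Real.log_pow]
      apply Real.log_lt_log (by positivity)
      linarith
    · exact hC1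
    · intro N hN
      exact hC2 N hN
  have hdiv : ∀ f g : ℕ → ℕ, (∃ c : ℝ, 0 < c ∧ ∀ᶠ N : ℕ in atTop,
      (g N : ℝ) + c * Real.log N ≤ f N) →
      (∃ N0 : ℕ, ∀ N : ℕ, N0 ≤ N → g N < f N) ∧
      Tendsto (fun N : ℕ => (f N : ℝ) - g N) atTop atTop := by
    rintro f g ⟨c, hc, h⟩
    have hlog : ∀ᶠ N : ℕ in atTop, 0 < Real.log (N : ℝ) :=
      tendsto_log_nat.eventually_gt_atTop 0
    constructor
    · apply eventually_atTop.1
      filter_upwards [h, hlog] with N h1 h2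
      have : (g N : ℝ) < f N := by
        have := mul_pos hc h2
        linarith
      exact_mod_cast this
    · refine tendsto_atTop_mono' _ ?_ (tendsto_log_nat.const_mul_atTop hc)
      filter_upwards [h] with N h1
      linarith
  refine ⟨fun m b hm hb => value_lower_random hm hb, fun b hb => tendsto_one hb, hgen, ?_⟩
  intro b hb
  have hb0 : (0 : ℝ) < b := by exact_mod_cast hb
  have h1 := hdiv (fun N => value N 1 b) (fun N => value N 1 (b + 1))
    (hgen 1 (b + 1) 1 b le_rfl (by omega) le_rfl hb (by push_cast; linarith))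
  have h2 := hdiv (fun N => value N 2 b) (fun N => value N 1 b)
    (hgen 1 b 2 b le_rfl hb (by omega) hb (by push_cast; linarith))
  obtain ⟨⟨N1, hN1⟩, h1t⟩ := h1
  obtain ⟨⟨N2, hN2⟩, h2t⟩ := h2
  exact ⟨⟨max N1 N2, fun N hN => ⟨hN1 N ((le_max_left _ _).trans hN),
    hN2 N ((le_max_right _ _).trans hN)⟩⟩, h1t, h2t⟩
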